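import Mathlib

/-!
# Project GJ: generalised Jacobi sums in three variables, general lemmas (helper702)
-/

set_option autoImplicit false

namespace Pool.Agent.Y702.GJ

open Finset ZMod


lemma card_ann {q : ℕ} [NeZero q] (m : ZMod q) :
    #{z : ZMod q | z * m = 0} ≤ Nat.gcd m.val q := by
  have e0 : 0 < Nat.gcd m.val q := Nat.gcd_pos_of_pos_right _ (NeZero.pos q)
  refine le_trans (card_le_card ?_) (IsAddCyclic.card_nsmul_eq_zero_le (α := ZMod q) e0)
  intro z hz
  rw [mem_filter] at hz ⊢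
  refine ⟨mem_univ _, ?_⟩
  have h1 := Nat.gcd_eq_gcd_ab m.val q
  have h2 : ((Nat.gcd m.val q : ℕ) : ZMod q) = m * ((Nat.gcdA m.val q : ℤ) : ZMod q) := by
    have h3 : (((Nat.gcd m.val q : ℕ) : ℤ) : ZMod q) =
      ((m.val * Nat.gcdA m.val q + q * Nat.gcdB m.val q : ℤ) : ZMod q) := by rw [h1]
    push_cast at h3
    rw [h3, ZMod.natCast_zmod_val, ZMod.natCast_self, zero_mul, add_zero]
  rw [nsmul_eq_mul, h2, mul_right_comm, mul_comm m z, hz.2, zero_mul]

lemma card_fib {q : ℕ} [NeZero q] (m y : ZMod q) :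
    #{z : ZMod q | z * m = y} ≤ Nat.gcd m.val q := by
  rcases (univ.filter fun z : ZMod q => z * m = y).eq_empty_or_nonempty with h | ⟨z0, hz0⟩
  · rw [h]; simp
  · refine le_trans ?_ (card_ann m)
    apply card_le_card_of_injOn (fun z => z - z0)
    · intro z hz
      have h1 := (mem_filter.1 hz).2
      have h2 := (mem_filter.1 hz0).2
      apply mem_coe.2
      apply mem_filter.2 ⟨mem_univ _, ?_⟩
      rw [sub_mul, h1, h2, sub_self]
    · intro a _ b _ h
      exact sub_left_injective h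

/-- Parseval -/
lemma pars {K : ℕ} [NeZero K] (F : ZMod K → ℂ) :
    ∑ z : ZMod K, ‖∑ b, F b * ZMod.stdAddChar (z * b)‖ ^ 2 = K * ∑ b, ‖F b‖ ^ 2 := by
  have conjψ : ∀ x : ZMod K, (starRingEnd ℂ) (ZMod.stdAddChar x) = ZMod.stdAddChar (-x) := by
    intro x
    rw [AddChar.map_neg_eq_conj]
  have h1 : ((∑ z : ZMod K, ‖∑ b, F b * ZMod.stdAddChar (z * b)‖ ^ 2 : ℝ) : ℂ) =
      ((K * ∑ b, ‖F b‖ ^ 2 : ℝ) : ℂ) := by
    push_cast
    simp only [← Complex.mul_conj']
    have h2 : ∀ z : ZMod K, (∑ b, F b * ZMod.stdAddChar (z * b)) *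
        (starRingEnd ℂ) (∑ b, F b * ZMod.stdAddChar (z * b)) =
        ∑ b, ∑ b', F b * (starRingEnd ℂ) (F b') * ZMod.stdAddChar (z * (b - b')) := by
      intro z
      rw [map_sum, sum_mul_sum]
      refine sum_congr rfl fun b _ => sum_congr rfl fun b' _ => ?_
      rw [map_mul (starRingEnd ℂ), conjψ, mul_sub, sub_eq_add_neg, AddChar.map_add_eq_mul]
      ring
    simp only [h2]
    rw [sum_comm, mul_sum]
    refine sum_congr rfl fun b _ => ?_
    rw [sum_comm]
    have h3 : ∀ b' : ZMod K, ∑ z : ZMod K, F b * (starRingEnd ℂ) (F b') *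
        ZMod.stdAddChar (z * (b - b')) =
        if b = b' then (K : ℂ) * (F b * (starRingEnd ℂ) (F b')) else 0 := by
      intro b'
      rw [← mul_sum, AddChar.sum_mulShift _ (ZMod.isPrimitive_stdAddChar K), ZMod.card]
      by_cases h : b = b'
      · rw [if_pos h, if_pos (by rw [h, sub_self])]
        push_cast
        ring
      · rw [if_neg h, if_neg (by rwa [sub_eq_zero])]
        simp
    simp only [h3]
    rw [sum_ite_eq]
    simp
  exact_mod_cast h1

/-- sums over the fibres of a map -/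
noncomputable def fib {X Y : Type} [Fintype X] [DecidableEq Y] (φ : X → Y) (f : X → ℂ) (y : Y) : ℂ :=
  ∑ x, if φ x = y then f x else 0

lemma hat_fib {X : Type} [Fintype X] {K : ℕ} [NeZero K] (φ : X → ZMod K) (f : X → ℂ)
    (z : ZMod K) : ∑ b, fib φ f b * ZMod.stdAddChar (z * b) =
      ∑ x, f x * ZMod.stdAddChar (z * φ x) := by
  unfold fib
  simp only [sum_mul]
  rw [sum_comm]
  refine sum_congr rfl fun x _ => ?_
  simp only [ite_mul, zero_mul]
  rw [sum_ite_eq]
  simp

lemma l2 {X Y : Type} [Fintype X] [Fintype Y] [DecidableEq Y] (φ : X → Y) (f : X → ℂ) (c : ℝ)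
    (h : ∀ y, ∑ x, (if φ x = y then ‖f x‖ else 0) ≤ c) :
    ∑ y, ‖fib φ f y‖ ^ 2 ≤ c * ∑ x, ‖f x‖ := by
  have h1 : ∀ y, ‖fib φ f y‖ ≤ ∑ x, (if φ x = y then ‖f x‖ else 0) := by
    intro y
    unfold fib
    refine (norm_sum_le _ _).trans (sum_le_sum fun x _ => ?_)
    split_ifs
    · exact le_rfl
    · rw [norm_zero]
  calc ∑ y, ‖fib φ f y‖ ^ 2 ≤ ∑ y, c * ∑ x, (if φ x = y then ‖f x‖ else 0) := by
        apply sum_le_sum
        intro y _
        have h2 := h1 y
        have h3 : 0 ≤ ‖fib φ f y‖ := norm_nonneg _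
        nlinarith [h y]
    _ = c * ∑ x, ‖f x‖ := by
        rw [← mul_sum, sum_comm]
        congr 1
        refine sum_congr rfl fun x _ => ?_
        rw [sum_ite_eq]
        simp

/-- averaging over the units -/
lemma ut1 {K : ℕ} [NeZero K] (P : ZMod K → ℝ) (hP : ∀ b, 0 ≤ P b) (d : ZMod K)
    (h : ∀ u : (ZMod K)ˣ, P (u * d) = P d) : (K.totient : ℝ) * P d ≤ ∑ z : ZMod K, P (z * d) := by
  classical
  have h1 : ∑ u : (ZMod K)ˣ, P (u * d) = (K.totient : ℝ) * P d := by
    simp only [h]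
    rw [sum_const, nsmul_eq_mul, card_univ, ZMod.card_units_eq_totient]
  rw [← h1]
  have h2 : ∑ u : (ZMod K)ˣ, P (u * d) =
      ∑ z ∈ (univ : Finset (ZMod K)ˣ).map ⟨Units.val, Units.val_injective⟩, P (z * d) := by
    rw [sum_map]
    rfl
  rw [h2]
  exact sum_le_sum_of_subset_of_nonneg (subset_univ _) fun z _ _ => hP _

lemma ut2 {K : ℕ} [NeZero K] (P : ZMod K → ℝ) (hP : ∀ b, 0 ≤ P b) (d : ZMod K) :
    ∑ z : ZMod K, P (z * d) ≤ (Nat.gcd d.val K : ℝ) * ∑ b, P b := by
  have h1 : ∑ z : ZMod K, P (z * d) = ∑ b, (#{z : ZMod K | z * d = b} : ℝ) * P b := by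
    rw [← sum_fiberwise (s := univ) (g := fun z : ZMod K => z * d)]
    refine sum_congr rfl fun b _ => ?_
    rw [← nsmul_eq_mul, ← sum_const]
    refine sum_congr rfl fun z hz => ?_
    rw [(mem_filter.1 hz).2]
  rw [h1, mul_sum]
  refine sum_le_sum fun b _ => ?_
  exact mul_le_mul_of_nonneg_right (by exact_mod_cast card_fib d b) (hP b)

lemma norm_le_one {q : ℕ} [NeZero q] (χ : DirichletCharacter ℂ q) (x : ZMod q) : ‖χ x‖ ≤ 1 :=
  χ.norm_le_one x

lemma sum_norm {q : ℕ} [NeZero q] (χ : DirichletCharacter ℂ q) :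
    ∑ x : ZMod q, ‖χ x‖ ≤ (q.totient : ℝ) := by
  classical
  have h1 : ∑ x : ZMod q, ‖χ x‖ =
      ∑ z ∈ (univ : Finset (ZMod q)ˣ).map ⟨Units.val, Units.val_injective⟩, ‖χ z‖ := by
    symm
    apply sum_subset (subset_univ _)
    intro x _ hx
    rw [norm_eq_zero]
    apply χ.map_nonunit
    rintro ⟨u, rfl⟩
    exact hx (mem_map.2 ⟨u, mem_univ _, rfl⟩)
  rw [h1, sum_map]
  simp only [Function.Embedding.coeFn_mk, DirichletCharacter.unit_norm_eq_one, sum_const,
    nsmul_eq_mul, mul_one]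
  rw [card_univ, ZMod.card_units_eq_totient]

/-- Gauss sums -/
noncomputable def Gs {q : ℕ} [NeZero q] (χ : DirichletCharacter ℂ q) (m : ZMod q) : ℂ :=
  ∑ x : ZMod q, χ x * ZMod.stdAddChar (m * x)

lemma Gs_unit {q : ℕ} [NeZero q] (χ : DirichletCharacter ℂ q) (m : ZMod q) (u : (ZMod q)ˣ) :
    Gs χ m = χ u * Gs χ (u * m) := by
  unfold Gs
  rw [mul_sum, ← Equiv.sum_comp (Units.mulLeft u)]
  refine sum_congr rfl fun x _ => ?_
  rw [Units.mulLeft_apply, map_mul]
  rw [show m * (u * x) = u * m * x by ring]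
  ring

/-- the bound for imprimitive Gauss sums -/
lemma Gs_bound {q : ℕ} [NeZero q] (χ : DirichletCharacter ℂ q) (m : ZMod q) :
    ‖Gs χ m‖ ^ 2 * χ.conductor ≤ (q : ℝ) ^ 2 := by
  classical
  by_cases hG : Gs χ m = 0
  · rw [hG]; simp
  set e := Nat.gcd m.val q with he
  have e0 : 0 < e := Nat.gcd_pos_of_pos_right _ (NeZero.pos q)
  have heq : e ∣ q := Nat.gcd_dvd_right _ _
  have hq0 : 0 < q := NeZero.pos q
  have hQ : q / e ∣ q := Nat.div_dvd_of_dvd heq
  -- the size
  have h1 : ‖Gs χ m‖ ^ 2 ≤ q * e := by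
    have h2 := ut1 (fun b => ‖Gs χ b‖ ^ 2) (fun b => by positivity) m (by
      intro u
      have h3 := Gs_unit χ m u
      have h4 : ‖Gs χ m‖ = ‖Gs χ (u * m)‖ := by
        rw [h3, norm_mul, DirichletCharacter.unit_norm_eq_one, one_mul]
      simp only [h4])
    have h5 : ∑ z : ZMod q, ‖Gs χ (z * m)‖ ^ 2 = q * ∑ y, ‖fib (fun x => x * m) (fun x => χ x) y‖ ^ 2 := by
      rw [← pars]
      refine sum_congr rfl fun z _ => ?_
      rw [hat_fib]
      unfold Gs
      congr 2
      refine sum_congr rfl fun x _ => ?_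
      congr 2
      ring
    have h6 : ∑ y, ‖fib (fun x : ZMod q => x * m) (fun x => χ x) y‖ ^ 2 ≤ e * ∑ x : ZMod q, ‖χ x‖ := by
      apply l2
      intro y
      calc ∑ x : ZMod q, (if x * m = y then ‖χ x‖ else 0) ≤ ∑ x : ZMod q, (if x * m = y then (1 : ℝ) else 0) := by
            refine sum_le_sum fun x _ => ?_
            split_ifs
            · exact χ.norm_le_one x
            · exact le_rfl
        _ = (#{z : ZMod q | z * m = y} : ℝ) := by rw [sum_boole]
        _ ≤ e := by exact_mod_cast card_fib m y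
    have h7 : (0 : ℝ) < q.totient := by exact_mod_cast Nat.totient_pos.2 hq0
    have h8 : (q.totient : ℝ) * ‖Gs χ m‖ ^ 2 ≤ q * (e * q.totient) := by
      calc (q.totient : ℝ) * ‖Gs χ m‖ ^ 2 ≤ _ := h2
        _ = _ := h5
        _ ≤ q * (e * q.totient) := by
          apply mul_le_mul_of_nonneg_left _ (by positivity)
          exact h6.trans (mul_le_mul_of_nonneg_left (sum_norm χ) (by positivity))
    nlinarith
  -- the conductor
  have h9 : χ.FactorsThrough (q / e) := by
    rw [DirichletCharacter.factorsThrough_iff_ker_unitsMap hQ]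
    intro u hu
    rw [MonoidHom.mem_ker] at hu ⊢
    have k1 : ZMod.castHom hQ (ZMod (q / e)) (u : ZMod q) = 1 := by
      have := congrArg Units.val hu
      simpa [ZMod.unitsMap_def] using this
    have k2 : (u : ZMod q) * m = m := by
      have k3 : ((((u : ZMod q) - 1).val : ℕ) : ZMod (q / e)) = 0 := by
        have k4 : ZMod.castHom hQ (ZMod (q / e)) ((u : ZMod q) - 1) = 0 := by
          rw [map_sub, k1, map_one, sub_self]
        rw [← k4, ← ZMod.natCast_zmod_val ((u : ZMod q) - 1), map_natCast, ZMod.natCast_zmod_val]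
      rw [ZMod.natCast_eq_zero_iff] at k3
      obtain ⟨t, ht⟩ := k3
      obtain ⟨s, hs⟩ : e ∣ m.val := Nat.gcd_dvd_left _ _
      have k5 : ((u : ZMod q) - 1) * m = 0 := by
        rw [← ZMod.natCast_zmod_val ((u : ZMod q) - 1), ← ZMod.natCast_zmod_val m, ht, hs,
          ← Nat.cast_mul, ZMod.natCast_eq_zero_iff]
        refine ⟨t * s, ?_⟩
        calc q / e * t * (e * s) = (q / e * e) * (t * s) := by ring
          _ = q * (t * s) := by rw [Nat.div_mul_cancel heq]
      rw [sub_mul, one_mul, sub_eq_zero] at k5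
      exact k5
    have k6 := Gs_unit χ m u
    rw [k2] at k6
    have k7 : χ u = 1 := by
      have : (χ u - 1) * Gs χ m = 0 := by rw [sub_mul, one_mul, ← k6, sub_self]
      rcases mul_eq_zero.1 this with h | h
      · exact sub_eq_zero.1 h
      · exact absurd h hG
    apply Units.ext
    rw [MulChar.coe_toUnitHom, k7, Units.val_one]
  have h10 : χ.conductor ≤ q / e := Nat.sInf_le h9
  have h11 : (e : ℝ) * χ.conductor ≤ q := by
    have : e * χ.conductor ≤ q := by
      calc e * χ.conductor ≤ e * (q / e) := Nat.mul_le_mul_left _ h10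
        _ = q := Nat.mul_div_cancel' heq
    exact_mod_cast this
  calc ‖Gs χ m‖ ^ 2 * χ.conductor ≤ (q * e) * χ.conductor :=
        mul_le_mul_of_nonneg_right h1 (by positivity)
    _ = q * (e * χ.conductor) := by ring
    _ ≤ q * q := mul_le_mul_of_nonneg_left h11 (by positivity)
    _ = (q : ℝ) ^ 2 := by ring

end Pool.Agent.Y702.GJ
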