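import Pool.Agent.Y883.GJ.Stm3
import Pool.Agent.Y702.GJ.A

/-!
# Project GJ: the bound TJAC for generalised Jacobi sums in three variables (helper702)
-/

set_option autoImplicit false

namespace Pool.Agent.Y702.GJ

open Finset ZMod

/-- the map `x ↦ c x` between the residues -/
noncomputable def ph (c : ℤ) (K q : ℕ) (x : ZMod q) : ZMod K := ((c * (x.val : ℤ) : ℤ) : ZMod K)

lemma ph_int {c : ℤ} {K q : ℕ} [NeZero q] (h : (K : ℤ) ∣ c * q) (n : ℤ) :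
    ph c K q (n : ZMod q) = ((c * n : ℤ) : ZMod K) := by
  unfold ph
  rw [ZMod.val_intCast, ZMod.intCast_eq_intCast_iff_dvd_sub]
  have h1 : c * n - c * (n % q) = c * q * (n / q) := by
    have h2 := Int.mul_ediv_add_emod n q
    linear_combination (-c) * h2
  rw [h1]
  exact Dvd.dvd.mul_right h _

lemma ph_mul {c : ℤ} {K q : ℕ} [NeZero q] (h : (K : ℤ) ∣ c * q) (w : ℤ) (x : ZMod q) :
    ph c K q ((w : ZMod q) * x) = (w : ZMod K) * ph c K q x := by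
  have h1 : (w : ZMod q) * x = ((w * (x.val : ℤ) : ℤ) : ZMod q) := by
    push_cast
    rw [ZMod.natCast_zmod_val]
  rw [h1, ph_int h]
  unfold ph
  push_cast
  ring

lemma dvdK {c : ℤ} {K q : ℕ} (h : K = c.natAbs * q) : (K : ℤ) ∣ c * q := by
  rw [h]
  push_cast
  exact mul_dvd_mul_right (abs_dvd_self c) _

lemma psi {c : ℤ} {K q : ℕ} [NeZero q] [NeZero K] (hc : c ≠ 0) (h : K = c.natAbs * q)
    (m : ZMod K) (x : ZMod q) :
    (ZMod.stdAddChar (m * ph c K q x) : ℂ) =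
      ZMod.stdAddChar (((c.sign * (m.val : ℤ) : ℤ) : ZMod q) * x) := by
  have h1 : m * ph c K q x = ((m.val * (c * x.val) : ℤ) : ZMod K) := by
    unfold ph
    push_cast
    rw [ZMod.natCast_zmod_val]
  have h2 : ((c.sign * (m.val : ℤ) : ℤ) : ZMod q) * x = ((c.sign * m.val * x.val : ℤ) : ZMod q) := by
    push_cast
    rw [ZMod.natCast_zmod_val]
  rw [h1, h2, ZMod.stdAddChar_coe, ZMod.stdAddChar_coe]
  congr 1
  have h3 : (c : ℂ) = c.sign * c.natAbs := by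
    have h3' := congrArg (fun z : ℤ => (z : ℂ)) (Int.sign_mul_natAbs c).symm
    rw [Int.cast_mul, Int.cast_natCast] at h3'
    exact h3'
  have h4 : (K : ℂ) = c.natAbs * q := by rw [h]; push_cast; rfl
  have h5 : (c.natAbs : ℂ) ≠ 0 := by
    exact_mod_cast Int.natAbs_ne_zero.2 hc
  have h6 : (q : ℂ) ≠ 0 := by exact_mod_cast NeZero.ne q
  rw [h4]
  push_cast
  rw [h3]
  field_simp

lemma cnt (c1 c2 c3 : ℤ) (k q2 q3 K : ℕ) [NeZero q2] [NeZero q3] [NeZero K]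
    (hq2 : q2 = k * c1.natAbs * c3.natAbs) (hq3 : q3 = k * c1.natAbs * c2.natAbs)
    (hK : K = k * c1.natAbs * c2.natAbs * c3.natAbs) (h23 : IsCoprime c2 c3) (h2 : c2 ≠ 0)
    (y : ZMod K) :
    #{x : ZMod q2 × ZMod q3 | ph c2 K q2 x.1 + ph c3 K q3 x.2 = y} ≤ k * c1.natAbs := by
  rw [← card_range (k * c1.natAbs)]
  apply card_le_card_of_injOn (fun x => x.2.val / c2.natAbs)
  · intro x hx
    simp only [coe_range, Set.mem_Iio]
    apply Nat.div_lt_of_lt_mul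
    have h1 := ZMod.val_lt x.2
    calc x.2.val < q3 := h1
      _ = c2.natAbs * (k * c1.natAbs) := by rw [hq3]; ring
  · rintro ⟨x2, x3⟩ hx ⟨x2', x3'⟩ hx' hd
    have e1 := (mem_filter.1 (mem_coe.1 hx)).2
    have e2 := (mem_filter.1 (mem_coe.1 hx')).2
    simp only at e1 e2 hd
    have e3 : (K : ℤ) ∣ (c2 * x2'.val + c3 * x3'.val) - (c2 * x2.val + c3 * x3.val) := by
      rw [← ZMod.intCast_eq_intCast_iff_dvd_sub]
      unfold ph at e1 e2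
      push_cast at e1 e2 ⊢
      rw [e1, e2]
    have e4 : c2 ∣ (x3'.val : ℤ) - x3.val := by
      have h4 : c2 ∣ (K : ℤ) := by
        rw [← Int.natAbs_dvd_natAbs, Int.natAbs_natCast, hK]
        exact ⟨k * c1.natAbs * c3.natAbs, by ring⟩
      have h5 := h4.trans e3
      have h6 : c2 ∣ c3 * ((x3'.val : ℤ) - x3.val) := by
        have h7 : c3 * ((x3'.val : ℤ) - x3.val) =
          ((c2 * x2'.val + c3 * x3'.val) - (c2 * x2.val + c3 * x3.val)) -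
            c2 * ((x2'.val : ℤ) - x2.val) := by ring
        rw [h7]
        exact dvd_sub h5 (dvd_mul_right _ _)
      exact h23.dvd_of_dvd_mul_left h6
    have e5 : x3.val = x3'.val := by
      have h7 : x3.val % c2.natAbs = x3'.val % c2.natAbs := by
        have h7' : x3.val ≡ x3'.val [MOD c2.natAbs] := by
          rw [Nat.modEq_iff_dvd]
          exact Int.natAbs_dvd.2 e4
        exact h7'
      have h8 := Nat.div_add_mod x3.val c2.natAbs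
      have h9 := Nat.div_add_mod x3'.val c2.natAbs
      rw [hd, h7] at h8
      rw [← h8, h9]
    have e6 : x3 = x3' := ZMod.val_injective _ e5
    have e7 : x2 = x2' := by
      have h8 : (K : ℤ) ∣ c2 * ((x2'.val : ℤ) - x2.val) := by
        have h7 : c2 * ((x2'.val : ℤ) - x2.val) =
          (c2 * x2'.val + c3 * x3'.val) - (c2 * x2.val + c3 * x3.val) := by rw [e5]; ring
        rw [h7]
        exact e3
      have h9 : (q2 : ℤ) ∣ (x2'.val : ℤ) - x2.val := by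
        have h10 : c2 * q2 ∣ c2 * ((x2'.val : ℤ) - x2.val) := by
          refine Dvd.dvd.trans ?_ h8
          rw [← Int.natAbs_dvd_natAbs, Int.natAbs_mul, Int.natAbs_natCast, Int.natAbs_natCast, hK, hq2]
          exact ⟨1, by ring⟩
        exact Int.dvd_of_mul_dvd_mul_left h2 h10
      have h10 : ((x2.val : ℤ) : ZMod q2) = ((x2'.val : ℤ) : ZMod q2) :=
        (ZMod.intCast_eq_intCast_iff_dvd_sub _ _ _).2 h9
      push_cast at h10
      rwa [ZMod.natCast_zmod_val, ZMod.natCast_zmod_val] at h10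
    rw [e6, e7]

lemma fib_unit {X : Type} [Fintype X] {K : ℕ} (φ : X → ZMod K) (f : X → ℂ) (e : X ≃ X)
    (u : (ZMod K)ˣ) (w : ℂ) (h1 : ∀ x, φ (e x) = u * φ x) (h2 : ∀ x, f (e x) = w * f x)
    (d : ZMod K) : fib φ f (u * d) = w * fib φ f d := by
  unfold fib
  rw [mul_sum, ← Equiv.sum_comp e]
  refine sum_congr rfl fun x _ => ?_
  rw [h1, h2]
  by_cases h : φ x = d
  · rw [if_pos (by rw [h]), if_pos h]
  · rw [if_neg, if_neg h, mul_zero]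
    intro h3
    exact h (u.isUnit.mul_left_cancel h3)

lemma um {K q : ℕ} [NeZero K] (h : q ∣ K) (u : (ZMod K)ˣ) :
    ((ZMod.unitsMap h u : (ZMod q)ˣ) : ZMod q) = (((u : ZMod K).val : ℤ) : ZMod q) := by
  rw [ZMod.unitsMap_def, Units.coe_map]
  conv_lhs => rw [← ZMod.natCast_zmod_val (u : ZMod K)]
  simp

lemma ph_um {c : ℤ} {K q : ℕ} [NeZero q] [NeZero K] (h : K = c.natAbs * q) (hd : q ∣ K)
    (u : (ZMod K)ˣ) (x : ZMod q) :
    ph c K q ((ZMod.unitsMap hd u : (ZMod q)ˣ) * x) = u * ph c K q x := by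
  rw [um, ph_mul (dvdK h)]
  push_cast
  rw [ZMod.natCast_zmod_val]

/-- the map -/
noncomputable def Φ (c1 c2 c3 : ℤ) (K q1 q2 q3 : ℕ) (x : ZMod q1 × (ZMod q2 × ZMod q3)) : ZMod K :=
  ph c1 K q1 x.1 + (ph c2 K q2 x.2.1 + ph c3 K q3 x.2.2)

/-- the function -/
noncomputable def F3 {q1 q2 q3 : ℕ} (χ₁ : DirichletCharacter ℂ q1) (χ₂ : DirichletCharacter ℂ q2)
    (χ₃ : DirichletCharacter ℂ q3) (x : ZMod q1 × (ZMod q2 × ZMod q3)) : ℂ :=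
  χ₁ x.1 * (χ₂ x.2.1 * χ₃ x.2.2)

lemma J_unit (c1 c2 c3 : ℤ) (K q1 q2 q3 : ℕ) [NeZero q1] [NeZero q2] [NeZero q3] [NeZero K]
    (h1 : K = c1.natAbs * q1) (h2 : K = c2.natAbs * q2) (h3 : K = c3.natAbs * q3)
    (χ₁ : DirichletCharacter ℂ q1) (χ₂ : DirichletCharacter ℂ q2) (χ₃ : DirichletCharacter ℂ q3)
    (u : (ZMod K)ˣ) (d : ZMod K) :
    ‖fib (Φ c1 c2 c3 K q1 q2 q3) (F3 χ₁ χ₂ χ₃) (u * d)‖ =
      ‖fib (Φ c1 c2 c3 K q1 q2 q3) (F3 χ₁ χ₂ χ₃) d‖ := by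
  have d1 : q1 ∣ K := ⟨c1.natAbs, by rw [h1]; ring⟩
  have d2 : q2 ∣ K := ⟨c2.natAbs, by rw [h2]; ring⟩
  have d3 : q3 ∣ K := ⟨c3.natAbs, by rw [h3]; ring⟩
  rw [fib_unit (Φ c1 c2 c3 K q1 q2 q3) (F3 χ₁ χ₂ χ₃)
    (Equiv.prodCongr (Units.mulLeft (ZMod.unitsMap d1 u))
      (Equiv.prodCongr (Units.mulLeft (ZMod.unitsMap d2 u)) (Units.mulLeft (ZMod.unitsMap d3 u)))) u
    (χ₁ (ZMod.unitsMap d1 u : (ZMod q1)ˣ) * (χ₂ (ZMod.unitsMap d2 u : (ZMod q2)ˣ) *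
      χ₃ (ZMod.unitsMap d3 u : (ZMod q3)ˣ)))]
  · rw [norm_mul, norm_mul, norm_mul, DirichletCharacter.unit_norm_eq_one,
      DirichletCharacter.unit_norm_eq_one, DirichletCharacter.unit_norm_eq_one]
    ring
  · rintro ⟨x1, x2, x3⟩
    simp only [Φ, Equiv.prodCongr_apply, Prod.map_apply, Units.mulLeft_apply]
    rw [ph_um h1, ph_um h2, ph_um h3]
    ring
  · rintro ⟨x1, x2, x3⟩
    simp only [F3, Equiv.prodCongr_apply, Prod.map_apply, Units.mulLeft_apply, map_mul]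
    ring

lemma J_hat (c1 c2 c3 : ℤ) (K q1 q2 q3 : ℕ) [NeZero q1] [NeZero q2] [NeZero q3] [NeZero K]
    (hc : c1 ≠ 0) (h1 : K = c1.natAbs * q1)
    (χ₁ : DirichletCharacter ℂ q1) (χ₂ : DirichletCharacter ℂ q2) (χ₃ : DirichletCharacter ℂ q3)
    (z : ZMod K) :
    ∑ b, fib (Φ c1 c2 c3 K q1 q2 q3) (F3 χ₁ χ₂ χ₃) b * ZMod.stdAddChar (z * b) =
      Gs χ₁ (((c1.sign * (z.val : ℤ) : ℤ) : ZMod q1)) *
        ∑ b, fib (fun x : ZMod q2 × ZMod q3 => ph c2 K q2 x.1 + ph c3 K q3 x.2)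
          (fun x => χ₂ x.1 * χ₃ x.2) b * ZMod.stdAddChar (z * b) := by
  rw [hat_fib, hat_fib, Fintype.sum_prod_type]
  unfold Gs
  rw [sum_mul_sum]
  refine sum_congr rfl fun x1 _ => ?_
  refine sum_congr rfl fun y _ => ?_
  rw [← psi hc h1]
  simp only [F3, Φ]
  rw [mul_add z, AddChar.map_add_eq_mul]
  ring

lemma J_l2 (c1 c2 c3 : ℤ) (k K q1 q2 q3 : ℕ) [NeZero q1] [NeZero q2] [NeZero q3] [NeZero K]
    (hc1 : c1 ≠ 0) (hc2 : c2 ≠ 0) (h23 : IsCoprime c2 c3)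
    (h1 : K = c1.natAbs * q1)
    (hq2 : q2 = k * c1.natAbs * c3.natAbs) (hq3 : q3 = k * c1.natAbs * c2.natAbs)
    (hK : K = k * c1.natAbs * c2.natAbs * c3.natAbs)
    (χ₁ : DirichletCharacter ℂ q1) (χ₂ : DirichletCharacter ℂ q2) (χ₃ : DirichletCharacter ℂ q3) :
    (∑ b, ‖fib (Φ c1 c2 c3 K q1 q2 q3) (F3 χ₁ χ₂ χ₃) b‖ ^ 2) * χ₁.conductor ≤
      (q1 : ℝ) ^ 2 * ((k * c1.natAbs : ℕ) * ((q2 : ℝ) * q3)) := by
  set R := fib (fun x : ZMod q2 × ZMod q3 => ph c2 K q2 x.1 + ph c3 K q3 x.2)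
          (fun x => χ₂ x.1 * χ₃ x.2) with hR
  have hb : ∀ x : ZMod q2 × ZMod q3, ‖χ₂ x.1 * χ₃ x.2‖ ≤ 1 := by
    intro x
    rw [norm_mul]
    exact mul_le_one₀ (χ₂.norm_le_one _) (norm_nonneg _) (χ₃.norm_le_one _)
  have a1 : ∑ y, ‖R y‖ ^ 2 ≤ (k * c1.natAbs : ℕ) * ((q2 : ℝ) * q3) := by
    refine (l2 _ _ ((k * c1.natAbs : ℕ) : ℝ) ?_).trans ?_
    · intro y
      calc ∑ x : ZMod q2 × ZMod q3, (if ph c2 K q2 x.1 + ph c3 K q3 x.2 = y then ‖χ₂ x.1 * χ₃ x.2‖ else 0)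
          ≤ ∑ x : ZMod q2 × ZMod q3, (if ph c2 K q2 x.1 + ph c3 K q3 x.2 = y then (1 : ℝ) else 0) := by
            refine sum_le_sum fun x _ => ?_
            split_ifs
            · exact hb x
            · exact le_rfl
        _ = (#{x : ZMod q2 × ZMod q3 | ph c2 K q2 x.1 + ph c3 K q3 x.2 = y} : ℝ) := by rw [sum_boole]
        _ ≤ (k * c1.natAbs : ℕ) := by exact_mod_cast cnt c1 c2 c3 k q2 q3 K hq2 hq3 hK h23 hc2 y
    · apply mul_le_mul_of_nonneg_left _ (by positivity)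
      calc ∑ x : ZMod q2 × ZMod q3, ‖χ₂ x.1 * χ₃ x.2‖ ≤ ∑ x : ZMod q2 × ZMod q3, (1 : ℝ) :=
            sum_le_sum fun x _ => hb x
        _ = (q2 : ℝ) * q3 := by
          rw [sum_const, card_univ, Fintype.card_prod, ZMod.card, ZMod.card]
          simp
  have a2 : (K : ℝ) * ((∑ b, ‖fib (Φ c1 c2 c3 K q1 q2 q3) (F3 χ₁ χ₂ χ₃) b‖ ^ 2) * χ₁.conductor) ≤
      (q1 : ℝ) ^ 2 * (K * ∑ y, ‖R y‖ ^ 2) := by
    rw [← pars, ← mul_assoc, ← pars, sum_mul, mul_sum]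
    refine sum_le_sum fun z _ => ?_
    rw [J_hat c1 c2 c3 K q1 q2 q3 hc1 h1, norm_mul, mul_pow, ← hR]
    calc ‖Gs χ₁ ((c1.sign * (z.val : ℤ) : ℤ) : ZMod q1)‖ ^ 2 *
          ‖∑ b, R b * ZMod.stdAddChar (z * b)‖ ^ 2 * χ₁.conductor =
          (‖Gs χ₁ ((c1.sign * (z.val : ℤ) : ℤ) : ZMod q1)‖ ^ 2 * χ₁.conductor) *
          ‖∑ b, R b * ZMod.stdAddChar (z * b)‖ ^ 2 := by ring
      _ ≤ _ := mul_le_mul_of_nonneg_right (Gs_bound _ _) (by positivity)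
  have hK0 : (0 : ℝ) < K := by exact_mod_cast NeZero.pos K
  have a3 : (K : ℝ) * ((∑ b, ‖fib (Φ c1 c2 c3 K q1 q2 q3) (F3 χ₁ χ₂ χ₃) b‖ ^ 2) * χ₁.conductor) ≤
      K * ((q1 : ℝ) ^ 2 * ((k * c1.natAbs : ℕ) * ((q2 : ℝ) * q3))) := by
    refine a2.trans ?_
    have a4 := mul_le_mul_of_nonneg_left a1 (by positivity : (0 : ℝ) ≤ (q1 : ℝ) ^ 2 * K)
    linarith
  exact le_of_mul_le_mul_left a3 hK0

lemma main (c1 c2 c3 : ℤ) (k K q1 q2 q3 : ℕ) [NeZero q1] [NeZero q2] [NeZero q3] [NeZero K]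
    (hc1 : c1 ≠ 0) (hc2 : c2 ≠ 0) (h23 : IsCoprime c2 c3)
    (hq1 : q1 = k * c2.natAbs * c3.natAbs)
    (hq2 : q2 = k * c1.natAbs * c3.natAbs) (hq3 : q3 = k * c1.natAbs * c2.natAbs)
    (hK : K = k * c1.natAbs * c2.natAbs * c3.natAbs)
    (χ₁ : DirichletCharacter ℂ q1) (χ₂ : DirichletCharacter ℂ q2) (χ₃ : DirichletCharacter ℂ q3)
    (d : ZMod K) :
    ‖fib (Φ c1 c2 c3 K q1 q2 q3) (F3 χ₁ χ₂ χ₃) d‖ ≤
      k * K * (1 + Real.log K) * Real.sqrt ((K : ℝ) / K.totient) *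
        Real.sqrt ((Nat.gcd d.val K : ℝ) / χ₁.conductor) := by
  have h1 : K = c1.natAbs * q1 := by rw [hK, hq1]; ring
  have h2 : K = c2.natAbs * q2 := by rw [hK, hq2]; ring
  have h3 : K = c3.natAbs * q3 := by rw [hK, hq3]; ring
  have hK0 : 0 < K := NeZero.pos K
  have hK0' : (0 : ℝ) < K := by exact_mod_cast hK0
  have hK1 : (1 : ℝ) ≤ K := by exact_mod_cast hK0
  have hφ : (0 : ℝ) < K.totient := by exact_mod_cast Nat.totient_pos.2 hK0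
  have hcond : (0 : ℝ) < χ₁.conductor := by
    exact_mod_cast Nat.pos_of_ne_zero χ₁.conductor_ne_zero
  set J := fib (Φ c1 c2 c3 K q1 q2 q3) (F3 χ₁ χ₂ χ₃) with hJ
  have b1 := ut1 (fun b => ‖J b‖ ^ 2) (fun b => by positivity) d (by
    intro u
    simp only [hJ]
    rw [J_unit c1 c2 c3 K q1 q2 q3 h1 h2 h3])
  have b2 := ut2 (fun b => ‖J b‖ ^ 2) (fun b => by positivity) d
  have b3 := J_l2 c1 c2 c3 k K q1 q2 q3 hc1 hc2 h23 h1 hq2 hq3 hK χ₁ χ₂ χ₃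
  rw [← hJ] at b3
  have b4 : (q1 : ℝ) ^ 2 * ((k * c1.natAbs : ℕ) * ((q2 : ℝ) * q3)) = (k : ℝ) ^ 2 * (K : ℝ) ^ 3 := by
    rw [hK, hq1, hq2, hq3]
    push_cast
    ring
  rw [b4] at b3
  set g : ℝ := (Nat.gcd d.val K : ℝ) with hg
  have hg0 : 0 ≤ g := by positivity
  have b5 : ‖J d‖ ^ 2 ≤ (k : ℝ) ^ 2 * (K : ℝ) ^ 2 * ((K : ℝ) / K.totient) * (g / χ₁.conductor) := by
    have b6 : (K.totient : ℝ) * ‖J d‖ ^ 2 * χ₁.conductor ≤ g * ((k : ℝ) ^ 2 * (K : ℝ) ^ 3) := by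
      calc (K.totient : ℝ) * ‖J d‖ ^ 2 * χ₁.conductor ≤ (g * ∑ b, ‖J b‖ ^ 2) * χ₁.conductor :=
            mul_le_mul_of_nonneg_right (b1.trans b2) hcond.le
        _ = g * ((∑ b, ‖J b‖ ^ 2) * χ₁.conductor) := by ring
        _ ≤ _ := mul_le_mul_of_nonneg_left b3 hg0
    have b7 : (k : ℝ) ^ 2 * (K : ℝ) ^ 2 * ((K : ℝ) / K.totient) * (g / χ₁.conductor) =
        g * ((k : ℝ) ^ 2 * (K : ℝ) ^ 3) / (K.totient * χ₁.conductor) := by
      field_simp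
    rw [b7, le_div_iff₀ (by positivity)]
    linarith
  have b8 : ‖J d‖ ≤ k * K * Real.sqrt ((K : ℝ) / K.totient) * Real.sqrt (g / χ₁.conductor) := by
    apply le_of_sq_le_sq _ (by positivity)
    rw [mul_pow, mul_pow, Real.sq_sqrt (by positivity), Real.sq_sqrt (by positivity), mul_pow]
    exact b5
  have b9 : 0 ≤ Real.log K := Real.log_nonneg hK1
  have b10 : 0 ≤ k * K * Real.sqrt ((K : ℝ) / K.totient) * Real.sqrt (g / χ₁.conductor) := by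
    positivity
  nlinarith [mul_nonneg b10 b9]

theorem tJac : Pool.Agent.Y883.GJ.TJacStm := by
  intro c1 c2 c3 k _ _ _ h12 h13 h23 K hK d χ₁ χ₂ χ₃
  subst hK
  have n1 : k * c2.natAbs * c3.natAbs ≠ 0 := NeZero.ne _
  have n2 : k * c1.natAbs * c3.natAbs ≠ 0 := NeZero.ne _
  have n3 : k * c1.natAbs * c2.natAbs ≠ 0 := NeZero.ne _
  have hk : k ≠ 0 := by rintro rfl; simp at n1
  have hc1 : c1 ≠ 0 := by rintro rfl; simp at n2
  have hc2 : c2 ≠ 0 := by rintro rfl; simp at n3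
  have hc3 : c3 ≠ 0 := by rintro rfl; simp at n1
  have : NeZero (k * c1.natAbs * c2.natAbs * c3.natAbs) :=
    ⟨by simp [hk, hc1, hc2, hc3]⟩
  have h := main c1 c2 c3 k _ _ _ _ hc1 hc2 h23 rfl rfl rfl rfl χ₁ χ₂ χ₃ d
  have e : Pool.Agent.Y883.GJ.T3 c1 c2 c3 k d (fun x => χ₁ x) (fun x => χ₂ x) (fun x => χ₃ x) =
      fib (Φ c1 c2 c3 (k * c1.natAbs * c2.natAbs * c3.natAbs) _ _ _) (F3 χ₁ χ₂ χ₃) d := by
    unfold Pool.Agent.Y883.GJ.T3 fib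
    rw [Fintype.sum_prod_type]
    refine sum_congr rfl fun x1 _ => ?_
    rw [Fintype.sum_prod_type]
    refine sum_congr rfl fun x2 _ => sum_congr rfl fun x3 _ => ?_
    have e1 : ((c1 * (x1.val : ℤ) + c2 * (x2.val : ℤ) + c3 * (x3.val : ℤ) : ℤ) :
        ZMod (k * c1.natAbs * c2.natAbs * c3.natAbs)) =
        Φ c1 c2 c3 (k * c1.natAbs * c2.natAbs * c3.natAbs) _ _ _ (x1, (x2, x3)) := by
      unfold Φ ph
      push_cast
      ring
    rw [e1]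
    have e2 : χ₁ x1 * χ₂ x2 * χ₃ x3 = χ₁ x1 * (χ₂ x2 * χ₃ x3) := mul_assoc _ _ _
    unfold F3
    split_ifs
    · exact e2
    · rfl
  rw [e]
  exact h

end Pool.Agent.Y702.GJ
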